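import Pool.Agent.W682.BQ.Stm
import Pool.Agent.W932.IW.Reg

/-! Project BQ, part REGB: regularity of `wB`, `eB`, `gB`. -/

set_option autoImplicit false

open MeasureTheory Set Filter Topology

namespace Pool.Agent.W382.BQ.Regb

open Pool.Agent.W488.IW Pool.Agent.W488.IX Pool.Agent.W682.BQ
open Pool.Agent.W932.IW.Reg (Prim kappa om_der hh_der c1_of c2_of hh_id XX_pos XX_contDiff XX_lip
  XX_fst XX_snd lip1 lip2 unit_le unit_lip norm_le_XX)

/-- first coefficient vector of the gradient -/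
noncomputable def A1 (κ : ℝ → ℝ) (ε ϑ : ℝ) (F : ℂ × ℂ) : ℂ :=
  (hh1 κ (XX ε F.1 + XX ε F.2) + ϑ) • F.1

/-- second coefficient vector of the gradient -/
noncomputable def B1 (κ : ℝ → ℝ) (ε ϑ : ℝ) (F : ℂ × ℂ) : ℂ :=
  (-hh1 κ (XX ε F.1 + XX ε F.2) + om1 κ (XX ε F.1 + XX ε F.2) / XX ε F.2 + ϑ) • F.2

/-- the gradient -/
noncomputable def GR (κ : ℝ → ℝ) (ε ϑ : ℝ) (F : ℂ × ℂ) : ℂ × ℂ →L[ℝ] ℝ :=
  (innerSL ℝ (A1 κ ε ϑ F)).comp (ContinuousLinearMap.fst ℝ ℂ ℂ) +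
    (innerSL ℝ (B1 κ ε ϑ F)).comp (ContinuousLinearMap.snd ℝ ℂ ℂ)

theorem wB_der {κ : ℝ → ℝ} (hκ : Bump κ) {M : ℝ} (h1 : Prim κ (om1 κ) M)
    (h2 : Prim (fun s => κ s / s) (hh1 κ) M) {ε : ℝ} (hε : 0 < ε) (ϑ : ℝ) (F : ℂ × ℂ) :
    HasFDerivAt (wB κ ε ϑ) (GR κ ε ϑ F) F := by
  have hX := XX_fst hε F
  have hY := XX_snd hε F
  have hS := hX.add hY
  have hV := hX.sub hY
  have d1 := (hh_der h2 (XX ε F.1 + XX ε F.2)).comp_hasFDerivAt F hS
  have d2 := (om_der h1 (XX ε F.1 + XX ε F.2)).comp_hasFDerivAt F hS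
  have d4 : HasFDerivAt (fun F : ℂ × ℂ => ‖F.1‖ ^ 2)
      (2 • (innerSL ℝ F.1).comp (ContinuousLinearMap.fst ℝ ℂ ℂ)) F := hasFDerivAt_fst.norm_sq
  have d5 : HasFDerivAt (fun F : ℂ × ℂ => ‖F.2‖ ^ 2)
      (2 • (innerSL ℝ F.2).comp (ContinuousLinearMap.snd ℝ ℂ ℂ)) F := hasFDerivAt_snd.norm_sq
  have d6 := ((((hV.mul d1).add d2).mul_const (1 / 2 : ℝ)).sub_const (fI κ ε ε)).add
    ((d4.add d5).const_mul (ϑ / 2))
  have hid := hh_id hκ h1 h2 (XX ε F.1 + XX ε F.2)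
  have pX := XX_pos hε F.1
  have pY := XX_pos hε F.2
  have hfun : wB κ ε ϑ = fun F : ℂ × ℂ => (((XX ε F.1 - XX ε F.2) * hh κ (XX ε F.1 + XX ε F.2) +
      om κ (XX ε F.1 + XX ε F.2)) * (1 / 2) - fI κ ε ε) +
      ϑ / 2 * (‖F.1‖ ^ 2 + ‖F.2‖ ^ 2) := by
    funext F
    unfold wB fI
    ring
  rw [hfun]
  refine HasFDerivAt.congr_fderiv d6 ?_
  have hh0 : hh κ (XX ε F.1 + XX ε F.2) = (XX ε F.1 + XX ε F.2) * hh1 κ (XX ε F.1 + XX ε F.2) -
    om1 κ (XX ε F.1 + XX ε F.2) := by linarith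
  unfold GR A1 B1
  apply ContinuousLinearMap.ext
  intro U
  simp only [add_apply, smul_apply,
    sub_apply, ContinuousLinearMap.comp_apply, smul_eq_mul,
    ContinuousLinearMap.coe_fst', ContinuousLinearMap.coe_snd', innerSL_apply_apply,
    inner_smul_left, Pi.sub_apply, Pi.add_apply, Function.comp_apply]
  rw [hh0]
  generalize hh1 κ (XX ε F.1 + XX ε F.2) = h'
  generalize om1 κ (XX ε F.1 + XX ε F.2) = oS
  generalize inner ℝ F.1 U.1 = u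
  generalize inner ℝ F.2 U.2 = v
  simp only [conj_trivial]
  field_simp
  ring

theorem GR_lip {κ : ℝ → ℝ} {M : ℝ} (h1 : Prim κ (om1 κ) M)
    (h2 : Prim (fun s => κ s / s) (hh1 κ) M) {ε : ℝ} (hε : 0 < ε) (ϑ : ℝ) (F F' : ℂ × ℂ) :
    ‖GR κ ε ϑ F - GR κ ε ϑ F'‖ ≤ (14 * M + 2 * M * (2 / ε) + 2 * |ϑ|) * ‖F - F'‖ := by
  set N := ‖F - F'‖ with hN
  have n1 : ‖F.1 - F'.1‖ ≤ N := norm_fst_le (F - F')
  have n2 : ‖F.2 - F'.2‖ ≤ N := norm_snd_le (F - F')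
  have x1 := (XX_lip hε F.1 F'.1).trans n1
  have x2 := (XX_lip hε F.2 F'.2).trans n2
  have hM := h1.pos
  have hN0 : 0 ≤ N := norm_nonneg _
  have hS : |(XX ε F.1 + XX ε F.2) - (XX ε F'.1 + XX ε F'.2)| ≤ 2 * N := by
    have e : (XX ε F.1 + XX ε F.2) - (XX ε F'.1 + XX ε F'.2) =
      (XX ε F.1 - XX ε F'.1) + (XX ε F.2 - XX ε F'.2) := by ring
    rw [e]
    exact (abs_add_le _ _).trans (by linarith)
  have pX := XX_pos hε F.1
  have pY := XX_pos hε F.2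
  have pX' := XX_pos hε F'.1
  have pY' := XX_pos hε F'.2
  have u2 : ‖(1 / XX ε F.2) • F.2 - (1 / XX ε F'.2) • F'.2‖ ≤ 2 / ε * N :=
    (unit_lip hε _ _).trans (mul_le_mul_of_nonneg_left n2 (by positivity))
  have a1 := lip1 h2 (a := F.1) (a' := F'.1) (S := XX ε F.1 + XX ε F.2)
    (S' := XX ε F'.1 + XX ε F'.2) ((norm_le_XX ε _).trans (by linarith))
    ((norm_le_XX ε _).trans (by linarith)) hS n1
  have b1 := lip1 h2 (a := F.2) (a' := F'.2) (S := XX ε F.1 + XX ε F.2)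
    (S' := XX ε F'.1 + XX ε F'.2) ((norm_le_XX ε _).trans (by linarith))
    ((norm_le_XX ε _).trans (by linarith)) hS n2
  have b2 := lip2 h1 (unit_le hε F.2) hS u2
  have hA : ‖A1 κ ε ϑ F - A1 κ ε ϑ F'‖ ≤ (6 * M + |ϑ|) * N := by
    have e : A1 κ ε ϑ F - A1 κ ε ϑ F' =
        (hh1 κ (XX ε F.1 + XX ε F.2) • F.1 - hh1 κ (XX ε F'.1 + XX ε F'.2) • F'.1) +
          ϑ • (F.1 - F'.1) := by
      unfold A1
      rw [add_smul, add_smul, smul_sub]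
      abel
    rw [e]
    refine (norm_add_le _ _).trans ?_
    have t2 : ‖ϑ • (F.1 - F'.1)‖ ≤ |ϑ| * N := by
      rw [norm_smul, Real.norm_eq_abs]
      exact mul_le_mul_of_nonneg_left n1 (abs_nonneg _)
    linarith
  have hB : ‖B1 κ ε ϑ F - B1 κ ε ϑ F'‖ ≤ (8 * M + 2 * M * (2 / ε) + |ϑ|) * N := by
    have e : B1 κ ε ϑ F - B1 κ ε ϑ F' =
        -(hh1 κ (XX ε F.1 + XX ε F.2) • F.2 - hh1 κ (XX ε F'.1 + XX ε F'.2) • F'.2) +
        (om1 κ (XX ε F.1 + XX ε F.2) • ((1 / XX ε F.2) • F.2) -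
          om1 κ (XX ε F'.1 + XX ε F'.2) • ((1 / XX ε F'.2) • F'.2)) + ϑ • (F.2 - F'.2) := by
      unfold B1
      simp only [add_smul, smul_smul, smul_sub, mul_one_div, neg_smul]
      abel
    rw [e]
    refine (norm_add_le _ _).trans ?_
    have t3 := norm_add_le (-(hh1 κ (XX ε F.1 + XX ε F.2) • F.2 -
        hh1 κ (XX ε F'.1 + XX ε F'.2) • F'.2))
        (om1 κ (XX ε F.1 + XX ε F.2) • ((1 / XX ε F.2) • F.2) -
          om1 κ (XX ε F'.1 + XX ε F'.2) • ((1 / XX ε F'.2) • F'.2))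
    rw [norm_neg] at t3
    have t2 : ‖ϑ • (F.2 - F'.2)‖ ≤ |ϑ| * N := by
      rw [norm_smul, Real.norm_eq_abs]
      exact mul_le_mul_of_nonneg_left n2 (abs_nonneg _)
    linarith
  have hG : ‖GR κ ε ϑ F - GR κ ε ϑ F'‖ ≤ ‖A1 κ ε ϑ F - A1 κ ε ϑ F'‖ +
      ‖B1 κ ε ϑ F - B1 κ ε ϑ F'‖ := by
    have e : GR κ ε ϑ F - GR κ ε ϑ F' =
        (innerSL ℝ (A1 κ ε ϑ F - A1 κ ε ϑ F')).comp (ContinuousLinearMap.fst ℝ ℂ ℂ) +
        (innerSL ℝ (B1 κ ε ϑ F - B1 κ ε ϑ F')).comp (ContinuousLinearMap.snd ℝ ℂ ℂ) := by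
      unfold GR
      rw [map_sub, map_sub, ContinuousLinearMap.sub_comp, ContinuousLinearMap.sub_comp]
      abel
    rw [e]
    refine (norm_add_le _ _).trans (add_le_add ?_ ?_)
    · refine (ContinuousLinearMap.opNorm_comp_le _ _).trans ?_
      rw [innerSL_apply_norm]
      calc _ ≤ ‖A1 κ ε ϑ F - A1 κ ε ϑ F'‖ * 1 :=
            mul_le_mul_of_nonneg_left (ContinuousLinearMap.norm_fst_le _ _ _) (norm_nonneg _)
        _ = _ := mul_one _
    · refine (ContinuousLinearMap.opNorm_comp_le _ _).trans ?_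
      rw [innerSL_apply_norm]
      calc _ ≤ ‖B1 κ ε ϑ F - B1 κ ε ϑ F'‖ * 1 :=
            mul_le_mul_of_nonneg_left (ContinuousLinearMap.norm_snd_le _ _ _) (norm_nonneg _)
        _ = _ := mul_one _
  have hε2 : 0 ≤ 2 / ε := by positivity
  have hx : 0 ≤ M * (2 / ε) * N := by positivity
  linarith

theorem JJ_der {l : ℝ → ℝ} (hc : Continuous l) (t : ℝ) : HasDerivAt (JJ l) (1 - l t) t := by
  have hc' : Continuous fun t => 1 - l t := continuous_const.sub hc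
  exact intervalIntegral.integral_hasDerivAt_right (hc'.intervalIntegrable _ _)
      (hc'.stronglyMeasurableAtFilter _ _) hc'.continuousAt

theorem main : S_REGB := by
  intro κ l η hB hl ε ϑ hε hε1
  have hκ := hB.bump
  obtain ⟨M, h1, h2, -⟩ := kappa hκ
  have co : ContDiff ℝ 1 (om1 κ) := c1_of h1.der h1.cont
  have ch : ContDiff ℝ 1 (hh1 κ) := c1_of h2.der h2.cont
  have co2 : ContDiff ℝ 2 (om κ) := c2_of (om_der h1) co
  have ch2 : ContDiff ℝ 2 (hh κ) := c2_of (hh_der h2) ch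
  have cl : ContDiff ℝ 1 l := hl.c1
  have cJ : ContDiff ℝ 1 (JJ l) := c1_of (JJ_der cl.continuous) (continuous_const.sub cl.continuous)
  have cX : ∀ n : WithTop ℕ∞, ContDiff ℝ n (fun F : ℂ × ℂ => XX ε F.1) := fun n =>
    (XX_contDiff hε).comp contDiff_fst
  have cY : ∀ n : WithTop ℕ∞, ContDiff ℝ n (fun F : ℂ × ℂ => XX ε F.2) := fun n =>
    (XX_contDiff hε).comp contDiff_snd
  have c1om : ContDiff ℝ 1 (om κ) := co2.of_le (by norm_num)
  have hfd : fderiv ℝ (wB κ ε ϑ) = GR κ ε ϑ := funext fun F => (wB_der hκ h1 h2 hε ϑ F).fderiv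
  refine ⟨?_, ⟨14 * M + 2 * M * (2 / ε) + 2 * |ϑ|, ?_⟩, ?_, ?_⟩
  · unfold wB fI
    have cs := (cX 2).add (cY 2)
    have cd := (cX 2).sub (cY 2)
    refine ContDiff.add (ContDiff.sub (ContDiff.div_const (ContDiff.add (cd.mul (ch2.comp cs))
      (co2.comp cs)) _) contDiff_const) (contDiff_const.mul ?_)
    exact ((contDiff_norm_sq ℝ).comp contDiff_fst).add ((contDiff_norm_sq ℝ).comp contDiff_snd)
  · intro F
    rw [hfd]
    have hM := h1.pos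
    apply norm_fderiv_le_of_lip' ℝ (by positivity)
    exact Filter.Eventually.of_forall (fun F' => GR_lip h1 h2 hε ϑ F' F)
  · unfold eB PsE
    refine ContDiff.add (ContDiff.div (ContDiff.div ?_ (contDiff_const.mul ((cY 1).pow 2)) ?_)
      ((cX 1).pow 2) ?_) contDiff_const
    · exact (((cl.comp (cX 1)).mul (cX 1)).mul (co.comp ((cX 1).add (cY 1)))).mul contDiff_const
    · intro F
      have := XX_pos hε F.2
      positivity
    · intro F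
      exact (pow_pos (XX_pos hε F.1) 2).ne'
  · unfold gB PsG Omc
    refine ContDiff.sub (ContDiff.div ?_ ((cY 1).pow 2) ?_) contDiff_const
    · exact ((c1om.comp ((cX 1).add (cY 1))).sub (contDiff_const.mul (cJ.comp (cX 1)))).neg
    · intro F
      exact (pow_pos (XX_pos hε F.2) 2).ne'

end Pool.Agent.W382.BQ.Regb
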